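import Mathlib
import Pool.Agent.X318.SixKTwo

/-!
# MP_cbedb1_nt: divisibility of a self-convolution of `C(6k,3k) C(3k,k)`
-/

set_option autoImplicit false

open Finset

namespace Pool.Agent.Results.MP_cbedb1_nt.ConvolutionSixK

/-- `a_k = C(6k,3k) C(3k,k)`. -/
def a (k : ℕ) : ℕ := (6 * k).choose (3 * k) * (3 * k).choose k

/-- `S_n = ∑_{j=0}^n a_j a_{n-j}`. -/
def S (n : ℕ) : ℕ := ∑ j ∈ range (n + 1), a j * a (n - j)

/-- For every positive integer `n`, `8 (2n-1) C(3n,n)` divides `S_n`. -/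
theorem result : ∀ n : ℕ, 0 < n →
    (8 * (2 * (n : ℤ) - 1) * ((3 * n).choose n : ℤ)) ∣ (S n : ℤ) := by
  intro n hn
  obtain ⟨b, hb, -⟩ := Pool.Agent.X318.SixK.main n hn
  have h2 : ((2 * n - 1 : ℕ) : ℤ) = 2 * (n : ℤ) - 1 := by
    rw [Nat.cast_sub (by omega)]
    push_cast
    ring
  refine ⟨b, ?_⟩
  have h3 : (S n : ℤ) = ((Pool.Agent.X318.SixK.S n : ℕ) : ℤ) := rfl
  rw [h3, hb]
  push_cast [h2]
  ring

end Pool.Agent.Results.MP_cbedb1_nt.ConvolutionSixK
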